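import Mathlib
import Pool.Agent.L0h77.WK.Stm

/-! Module WOC of the project WK: weak convergence on the space of continuous functions. -/

set_option autoImplicit false

open MeasureTheory Filter Topology Complex

namespace Pool.Agent.L0h4.WK

open Pool.Agent.L0h77.WK
open Pool.Agent.N661.BR (MW lin)

noncomputable section

lemma toC_apply {g : ℂ → ℝ} (hg : Continuous g) (w : ℂ) : toC g w = g w := by
  unfold toC
  rw [dif_pos hg]
  rfl

/-- the pairing of a continuous function with a finitely supported function -/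
def pr : C(ℂ, ℝ) →ₗ[ℝ] (ℂ →₀ ℝ) →ₗ[ℝ] ℝ where
  toFun f := Finsupp.linearCombination ℝ (fun w => f w)
  map_add' f g := by
    ext w
    simp
  map_smul' c f := by
    ext w
    simp

lemma pr_apply (f : C(ℂ, ℝ)) (a : ℂ →₀ ℝ) : pr f a = a.sum (fun w t => t * f w) := by
  unfold pr
  simp [Finsupp.linearCombination_apply]

lemma pr_fin (a : ℂ →₀ ℝ) : ∃ (k : ℕ) (w : Fin k → ℂ) (t : Fin k → ℝ), ∀ f : C(ℂ, ℝ), pr f a = ∑ j, t j * f (w j) := by
  classical
  refine ⟨a.support.card, fun j => (a.support.equivFin.symm j : ℂ), fun j => a (a.support.equivFin.symm j : ℂ), fun f => ?_⟩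
  rw [pr_apply, Finsupp.sum, ← Finset.sum_coe_sort]
  exact (Equiv.sum_comp a.support.equivFin.symm (fun x : a.support => a (x : ℂ) * f (x : ℂ))).symm

lemma tight_part (h1 : S_CPT) (U : Set ℂ) (hU : MeasurableSet U) (hU0 : volume U ≠ 0) (hUt : volume U ≠ ⊤)
    (F : ℕ → ℂ → C(ℂ, ℝ))
    (htight : ∀ η : ℝ, 0 < η → ∃ M : ℕ → ℝ, ∀ n, volume {z ∈ U | ¬ LipBd M (F n z)} ≤ ENNReal.ofReal η)
    (ε : ENNReal) (hε : 0 < ε) : ∃ K : Set C(ℂ, ℝ), IsCompact K ∧
      ∀ n, ((volume U)⁻¹ • volume.restrict U) (F n ⁻¹' Kᶜ) ≤ ε := by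
  have h0 : 0 < ε * volume U := by
    rw [pos_iff_ne_zero]
    exact mul_ne_zero hε.ne' hU0
  obtain ⟨r, hr0, hr⟩ := ENNReal.lt_iff_exists_nnreal_btwn.1 h0
  have hr0' : (0 : ℝ) < r := by exact_mod_cast hr0
  obtain ⟨M, hM⟩ := htight r hr0'
  refine ⟨{f : C(ℂ, ℝ) | LipBd M f}, h1 M, fun n => ?_⟩
  rw [Measure.smul_apply, smul_eq_mul, Measure.restrict_apply' hU]
  have h3 : F n ⁻¹' {f : C(ℂ, ℝ) | LipBd M f}ᶜ ∩ U = {z ∈ U | ¬ LipBd M (F n z)} := by
    ext z
    simp only [Set.mem_inter_iff, Set.mem_preimage, Set.mem_compl_iff, Set.mem_ofPred_eq]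
    tauto
  rw [h3]
  have h4 : volume {z ∈ U | ¬ LipBd M (F n z)} ≤ ε * volume U := by
    refine (hM n).trans ?_
    rw [ENNReal.ofReal_coe_nnreal]
    exact hr.le
  calc (volume U)⁻¹ * volume {z ∈ U | ¬ LipBd M (F n z)} ≤ (volume U)⁻¹ * (ε * volume U) := by gcongr
    _ = ε * ((volume U)⁻¹ * volume U) := by ring
    _ = ε := by rw [ENNReal.inv_mul_cancel hU0 hUt, mul_one]

/-- **WOC.** -/
theorem WOC (h1 : S_CPT) (h2 : S_MSR) : S_WOC := by
  intro U hU hU0 hUt F hF htight μ hμ hchar Φ hΦ hΦb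
  let _ : MeasurableSpace C(ℂ, ℝ) := borel C(ℂ, ℝ)
  have : BorelSpace C(ℂ, ℝ) := ⟨rfl⟩
  let _ : TopologicalSpace (ℂ →₀ ℝ) := ⊥
  have : DiscreteTopology (ℂ →₀ ℝ) := ⟨rfl⟩
  obtain ⟨P0, hP0⟩ : ∃ P0 : Measure ℂ, P0 = (volume U)⁻¹ • volume.restrict U := ⟨_, rfl⟩
  have : IsProbabilityMeasure P0 := ⟨by
    rw [hP0, Measure.smul_apply, smul_eq_mul, Measure.restrict_apply_univ, ENNReal.inv_mul_cancel hU0 hUt]⟩
  have hintC : ∀ g : ℂ → ℂ, ∫ z, g z ∂P0 = (1 / volume.real U : ℝ) * ∫ z in U, g z := by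
    intro g
    rw [hP0, integral_smul_measure, ENNReal.toReal_inv, one_div, Measure.real, Complex.real_smul]
  have hintR : ∀ g : ℂ → ℝ, ∫ z, g z ∂P0 = (1 / volume.real U : ℝ) * ∫ z in U, g z := by
    intro g
    rw [hP0, integral_smul_measure, ENNReal.toReal_inv, one_div, Measure.real, smul_eq_mul]
  have hFm : ∀ n, Measurable (F n) := fun n => h2 ℂ (F n) (hF n)
  have hGm : Measurable (fun f : MW => toC f.1) := by
    apply h2 MW
    intro w
    have h3 : (fun f : MW => toC f.1 w) = fun f : MW => f.1 w := by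
      funext f
      exact toC_apply f.2.1.continuous w
    rw [h3]
    exact (measurable_pi_apply w).comp measurable_subtype_coe
  obtain ⟨νn, hνn⟩ : ∃ νn : ℕ → ProbabilityMeasure C(ℂ, ℝ), ∀ n, (νn n : Measure C(ℂ, ℝ)) = P0.map (F n) :=
    ⟨fun n => ⟨P0.map (F n), Measure.isProbabilityMeasure_map (hFm n).aemeasurable⟩, fun n => rfl⟩
  obtain ⟨ν, hν⟩ : ∃ ν : ProbabilityMeasure C(ℂ, ℝ), (ν : Measure C(ℂ, ℝ)) = μ.map (fun f : MW => toC f.1) :=
    ⟨⟨μ.map (fun f : MW => toC f.1), Measure.isProbabilityMeasure_map hGm.aemeasurable⟩, rfl⟩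
  have ht : IsTightMeasureSet {(νn n : Measure C(ℂ, ℝ)) | n} := by
    rw [isTightMeasureSet_iff_exists_isCompact_measure_compl_le]
    intro ε hε
    obtain ⟨K, hK, hK2⟩ := tight_part h1 U hU hU0 hUt F htight ε hε
    refine ⟨K, hK, ?_⟩
    rintro _ ⟨n, rfl⟩
    rw [hνn, Measure.map_apply (hFm n) hK.isClosed.measurableSet.compl, hP0]
    exact hK2 n
  have hL : Continuous fun p : C(ℂ, ℝ) × (ℂ →₀ ℝ) => pr p.1 p.2 := by
    rw [continuous_prod_of_discrete_right]
    intro a
    obtain ⟨k, w, t, hk⟩ := pr_fin a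
    simp only [hk]
    fun_prop
  have hsep : ((BoundedContinuousFunction.charPoly Real.continuous_probChar (L := pr) hL).map
      (BoundedContinuousFunction.toContinuousMapStarₐ ℂ)).SeparatesPoints := by
    apply BoundedContinuousFunction.separatesPoints_charPoly Real.continuous_probChar Real.probChar_ne_one
    intro v hv hv2
    apply hv
    ext w
    have h3 := congrArg (fun l => l (Finsupp.single w 1)) hv2
    simp only [LinearMap.zero_apply] at h3
    rw [pr_apply, Finsupp.sum_single_index (by simp)] at h3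
    simpa using h3
  have hchar1 : ∀ a : ℂ →₀ ℝ, Tendsto (fun n => ∫ f, ((Real.probChar (pr f a) : Circle) : ℂ) ∂(νn n : Measure C(ℂ, ℝ))) atTop
      (𝓝 (∫ f, ((Real.probChar (pr f a) : Circle) : ℂ) ∂(ν : Measure C(ℂ, ℝ)))) := by
    intro a
    obtain ⟨k, w, t, hk⟩ := pr_fin a
    have hcont : Continuous fun f : C(ℂ, ℝ) => ((Real.probChar (pr f a) : Circle) : ℂ) := by
      simp only [hk, Real.probChar_apply]
      fun_prop
    have h3 := hchar k w t
    have h4 : ∀ n, ∫ f, ((Real.probChar (pr f a) : Circle) : ℂ) ∂(νn n : Measure C(ℂ, ℝ)) =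
        (1 / volume.real U : ℝ) * ∫ z in U, Complex.exp (I * ((∑ j, t j * F n z (w j) : ℝ) : ℂ)) := by
      intro n
      rw [hνn, integral_map (hFm n).aemeasurable hcont.aestronglyMeasurable, hintC]
      simp only [hk, Real.probChar_apply, mul_comm I]
    have h5 : ∫ f, ((Real.probChar (pr f a) : Circle) : ℂ) ∂(ν : Measure C(ℂ, ℝ)) =
        ∫ f, Complex.exp (I * (lin w t f : ℝ)) ∂μ := by
      rw [hν, integral_map hGm.aemeasurable hcont.aestronglyMeasurable]
      apply integral_congr_ae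
      filter_upwards with f
      rw [Real.probChar_apply, hk, mul_comm I]
      unfold lin
      congr 3
      apply Finset.sum_congr rfl
      intro j _
      rw [toC_apply f.2.1.continuous]
    simp only [h4]
    rw [h5]
    exact h3
  have hμA : ∀ g ∈ BoundedContinuousFunction.charPoly Real.continuous_probChar (L := pr) hL,
      Tendsto (fun n => ∫ f, g f ∂(νn n : Measure C(ℂ, ℝ))) atTop (𝓝 (∫ f, g f ∂(ν : Measure C(ℂ, ℝ)))) := by
    intro g hg
    rw [BoundedContinuousFunction.mem_charPoly] at hg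
    obtain ⟨w, hw⟩ := hg
    have h_eq (ρ : Measure C(ℂ, ℝ)) (hρ : IsProbabilityMeasure ρ) :
        ∫ x, g x ∂ρ = w.coeff.sum (fun a z => z * ∫ x, ((Real.probChar (pr x a) : Circle) : ℂ) ∂ρ) := by
      simp_rw [hw, Finsupp.sum]
      rw [integral_finsetSum]
      · congr with y
        rw [integral_const_mul]
      · refine fun i hi => Integrable.const_mul ?_ _
        exact BoundedContinuousFunction.integrable ρ (BoundedContinuousFunction.char Real.continuous_probChar hL i)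
    simp_rw [h_eq (νn _) inferInstance, h_eq ν inferInstance]
    refine tendsto_finsetSum _ fun y hy => Tendsto.const_mul _ ?_
    exact hchar1 y
  have hconv := ProbabilityMeasure.tendsto_of_tight_of_separatesPoints ℂ ht hsep hμA
  rw [ProbabilityMeasure.tendsto_iff_forall_integral_tendsto] at hconv
  obtain ⟨C, hC⟩ := hΦb
  have h6 := hconv (BoundedContinuousFunction.ofNormedAddCommGroup Φ hΦ C (fun f => by
    rw [Real.norm_eq_abs]; exact hC f))
  have h7 : ∀ n, ∫ f, (BoundedContinuousFunction.ofNormedAddCommGroup Φ hΦ C (fun f => by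
    rw [Real.norm_eq_abs]; exact hC f)) f ∂(νn n : Measure C(ℂ, ℝ)) = (1 / volume.real U : ℝ) * ∫ z in U, Φ (F n z) := by
    intro n
    rw [hνn, integral_map (hFm n).aemeasurable (BoundedContinuousFunction.continuous _).aestronglyMeasurable, hintR]
    rfl
  have h8 : ∫ f, (BoundedContinuousFunction.ofNormedAddCommGroup Φ hΦ C (fun f => by
    rw [Real.norm_eq_abs]; exact hC f)) f ∂(ν : Measure C(ℂ, ℝ)) = ∫ f, Φ (toC f.1) ∂μ := by
    rw [hν, integral_map hGm.aemeasurable (BoundedContinuousFunction.continuous _).aestronglyMeasurable]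
    rfl
  simp only [h7] at h6
  rw [h8] at h6
  exact h6

end

end Pool.Agent.L0h4.WK
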